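import Pool.Agent.H94.EGC.S1

/-!
# EGC, CL2: two places
-/

set_option autoImplicit false

namespace Pool.EGC

namespace H62

theorem mem_two (hM : MOMStmt) {c : Fin 2 → Bool} {d : ℕ} {x : Fin 2 → ℕ} :
    x ∈ Mo c d ↔ x 0 + x 1 = d ∧ (c 0 = true → x 0 ≤ 1) ∧ (c 1 = true → x 1 ≤ 1) := by
  rw [(hM 2 c d x).1, Fin.sum_univ_two]
  simp [Fin.forall_fin_two]

theorem ext_two (hM : MOMStmt) {c : Fin 2 → Bool} {d : ℕ} {x y : Fin 2 → ℕ} (hx : x ∈ Mo c d)
    (hy : y ∈ Mo c d) (h : x 0 = y 0) : x = y := by
  rw [mem_two hM] at hx hy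
  funext i
  fin_cases i
  · exact h
  · show x 1 = y 1
    omega

theorem inj_two (hM : MOMStmt) {c : Fin 2 → Bool} {d : ℕ} {A : Finset (Fin 2 → ℕ)}
    (hA : A ⊆ Mo c d) : Set.InjOn (fun x : Fin 2 → ℕ => x 0) A := by
  intro x hx y hy h
  exact ext_two hM (hA hx) (hA hy) h

theorem up_sub (hM : MOMStmt) {c : Fin 2 → Bool} {d : ℕ} {A : Finset (Fin 2 → ℕ)} :
    up c d A ⊆ Mo c (d + 1) := fun y hy => (((hM 2 c d 0).2 A y).1 hy).1

theorem lx_two {x y : Fin 2 → ℕ} (h : x 0 < y 0) : lx x y :=
  ⟨0, fun j hj => absurd hj (by simp), h⟩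

/-- The case without caps. -/
theorem ff (hM : MOMStmt) {c : Fin 2 → Bool} (h0 : c 0 = false) (h1 : c 1 = false) {d : ℕ}
    {A B : Finset (Fin 2 → ℕ)} (hA : A ⊆ Mo c d) (hB : Sg c d B) (hAB : B.card = A.card) :
    (up c d B).card ≤ (up c d A).card := by
  classical
  rcases A.eq_empty_or_nonempty with hA0 | hA0
  · rw [hA0, Finset.card_empty, Finset.card_eq_zero] at hAB
    rw [hA0, hAB]
  have hcA : (A.image fun x => x 0).card = A.card := Finset.card_image_of_injOn (inj_two hM hA)
  have hcB : (B.image fun x => x 0).card = B.card :=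
    Finset.card_image_of_injOn (inj_two hM hB.1)
  have hcuA : ((up c d A).image fun x => x 0).card = (up c d A).card :=
    Finset.card_image_of_injOn (inj_two hM (up_sub hM))
  have hcuB : ((up c d B).image fun x => x 0).card = (up c d B).card :=
    Finset.card_image_of_injOn (inj_two hM (up_sub hM))
  have hne : (A.image fun x => x 0).Nonempty := hA0.image _
  have k1 : A.card + 1 ≤ (up c d A).card := by
    rw [← hcA, ← hcuA]
    obtain ⟨M, hMd⟩ : ∃ M, M = (A.image fun x => x 0).max' hne := ⟨_, rfl⟩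
    have hn : M + 1 ∉ A.image fun x => x 0 := by
      intro h
      have := Finset.le_max' _ _ h
      omega
    rw [← Finset.card_insert_of_notMem hn]
    refine Finset.card_le_card fun t ht => ?_
    rw [Finset.mem_insert] at ht
    rcases ht with ht | ht
    · have hMm := Finset.max'_mem _ hne
      rw [← hMd, Finset.mem_image] at hMm
      obtain ⟨x, hx, hxM⟩ := hMm
      rw [Finset.mem_image]
      refine ⟨x + Pi.single 0 1, ((hM 2 c d 0).2 A _).2 ⟨?_, x, hx, 0, rfl⟩, ?_⟩
      · have := (mem_two hM).1 (hA hx)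
        rw [mem_two hM]
        simp only [Pi.add_apply, Pi.single_eq_same, ne_eq, one_ne_zero, not_false_eq_true,
          Pi.single_eq_of_ne, h0, h1, Bool.false_eq_true, false_implies, and_true]
        omega
      · simp only [Pi.add_apply, Pi.single_eq_same]
        omega
    · rw [Finset.mem_image] at ht
      obtain ⟨x, hx, hxt⟩ := ht
      rw [Finset.mem_image]
      refine ⟨x + Pi.single 1 1, ((hM 2 c d 0).2 A _).2 ⟨?_, x, hx, 1, rfl⟩, ?_⟩
      · have := (mem_two hM).1 (hA hx)
        rw [mem_two hM]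
        simp only [Pi.add_apply, Pi.single_eq_same, ne_eq, zero_ne_one, not_false_eq_true,
          Pi.single_eq_of_ne, h0, h1, Bool.false_eq_true, false_implies, and_true]
        omega
      · simp only [Pi.add_apply, ne_eq, zero_ne_one, not_false_eq_true, Pi.single_eq_of_ne]
        omega
  have k2 : (up c d B).card ≤ B.card + 1 := by
    rw [← hcB, ← hcuB]
    refine le_trans ?_ (Finset.card_insert_le (d + 1) _)
    refine Finset.card_le_card fun t ht => ?_
    rw [Finset.mem_image] at ht
    obtain ⟨y, hy, hyt⟩ := ht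
    obtain ⟨hy1, x, hx, i, hxy⟩ := ((hM 2 c d 0).2 B y).1 hy
    have hxm := (mem_two hM).1 (hB.1 hx)
    rw [Finset.mem_insert, Finset.mem_image]
    by_cases hi : i = 0
    · have e1 : y 0 = x 0 + 1 := by
        rw [hxy, hi]
        simp
      by_cases hd : x 0 = d
      · left
        omega
      · right
        refine ⟨![x 0 + 1, d - (x 0 + 1)], hB.2 x hx _ ?_ (lx_two ?_), ?_⟩
        · rw [mem_two hM]
          simp only [Matrix.cons_val_zero, Matrix.cons_val_one, h0, h1,
            Bool.false_eq_true, false_implies, and_true]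
          omega
        · simp
        · simp only [Matrix.cons_val_zero]
          omega
    · have hi1 : i = 1 := by
        have := i.isLt
        ext
        have h2 : (i : ℕ) ≠ 0 := fun h => hi (Fin.ext h)
        simp only [Fin.val_one]
        omega
      have e1 : y 0 = x 0 := by
        rw [hxy, hi1]
        simp
      right
      exact ⟨x, hx, by omega⟩
  omega

/-- The case with a cap at the first place. -/
theorem tt (hM : MOMStmt) {c : Fin 2 → Bool} (h0 : c 0 = true) {d : ℕ}
    {A B : Finset (Fin 2 → ℕ)} (hA : A ⊆ Mo c d) (hB : Sg c d B) (hAB : B.card = A.card) :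
    (up c d B).card ≤ (up c d A).card := by
  classical
  by_cases h : A = B
  · rw [h]
  -- there is a vector in `B` which is not in `A` and conversely
  have hBA : ¬ B ⊆ A := fun hs => h (Finset.eq_of_subset_of_card_le hs hAB.ge).symm
  have hAB' : ¬ A ⊆ B := fun hs => h (Finset.eq_of_subset_of_card_le hs hAB.le)
  obtain ⟨b, hb, hbA⟩ := Finset.not_subset.1 hBA
  obtain ⟨a, ha, haB⟩ := Finset.not_subset.1 hAB'
  have hbm := (mem_two hM).1 (hB.1 hb)
  have ham := (mem_two hM).1 (hA ha)
  have hne : a 0 ≠ b 0 := fun hh => hbA (by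
    rw [← ext_two hM (hA ha) (hB.1 hb) hh]
    exact ha)
  have hb0 := hbm.2.1 h0
  have ha0 := ham.2.1 h0
  -- `a` is smaller
  have hlt : a 0 < b 0 := by
    by_contra hcon
    exact haB (hB.2 b hb a (hA ha) (lx_two (by omega)))
  have eb : b 0 = 1 := by omega
  have ea : a 0 = 0 := by omega
  have hBe : B = {b} := by
    ext t
    rw [Finset.mem_singleton]
    constructor
    · intro ht
      have htm := (mem_two hM).1 (hB.1 ht)
      have ht0 := htm.2.1 h0
      by_cases h3 : t 0 = 1
      · exact ext_two hM (hB.1 ht) (hB.1 hb) (by omega)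
      · exact absurd (by
          rw [ext_two hM (hA ha) (hB.1 ht) (by omega)]
          exact ht) haB
    · intro ht
      rw [ht]
      exact hb
  have k2 : (up c d B).card ≤ 1 := by
    refine Finset.card_le_one.2 fun s hs t ht => ?_
    obtain ⟨hs1, x, hx, i, hxs⟩ := ((hM 2 c d 0).2 B s).1 hs
    obtain ⟨ht1, x', hx', i', hxt⟩ := ((hM 2 c d 0).2 B t).1 ht
    rw [hBe, Finset.mem_singleton] at hx hx'
    have q1 := ((mem_two hM).1 hs1).2.1 h0
    have q2 := ((mem_two hM).1 ht1).2.1 h0
    refine ext_two hM hs1 ht1 ?_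
    have q3 : b 0 ≤ s 0 := by
      rw [hxs, hx]
      exact Nat.le_add_right _ _
    have q4 : b 0 ≤ t 0 := by
      rw [hxt, hx']
      exact Nat.le_add_right _ _
    omega
  have k1 : 1 ≤ (up c d A).card := by
    refine Finset.card_pos.2 ⟨a + Pi.single 0 1, ((hM 2 c d 0).2 A _).2 ⟨?_, a, ha, 0, rfl⟩⟩
    rw [mem_two hM]
    simp only [Pi.add_apply, Pi.single_eq_same, ne_eq, one_ne_zero, not_false_eq_true,
      Pi.single_eq_of_ne, add_zero]
    refine ⟨by omega, fun _ => by omega, fun h3 => ham.2.2 h3⟩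
  omega

end H62

/-- CL2. -/
theorem t_CL2 (hM : MOMStmt) : CL2Stmt := by
  intro c hc d A B hA hB hAB
  by_cases h0 : c 0 = true
  · exact H62.tt hM h0 hA hB hAB
  · have h0' : c 0 = false := by simpa using h0
    have h1' : c 1 = false := by
      by_contra h1
      exact h0 (hc 0 1 (by simp) (by simpa using h1))
    exact H62.ff hM h0' h1' hA hB hAB

end Pool.EGC
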